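import Pool.Agent.Lib.P76w.Main
import Pool.Agent.Lib.P76g.Unif

/-!
Comparison between the Simple-equation energy `e` and the ground-state energy per particle `e₀(ρ)` of the
Bose gas with potential `g v₁`, uniformly in the coupling constant `g > 0`.
-/

open MeasureTheory Filter Topology
open scoped ENNReal NNReal FourierTransform
open Pool.Agent.P76s

namespace Pool.Agent.Results.MP_76de3d_mp.AllCouplings

/-- `v : ℝ³ → [0, ∞)` is an even (for instance radial) integrable pair potential, `v ≠ 0`. -/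
structure IsPotential (v : E3 → ℝ) : Prop where
  measurable : Measurable v
  nonneg : ∀ x, 0 ≤ v x
  even : ∀ x, v (-x) = v x
  integrable : Integrable v
  ne_zero : 0 < ∫ x, v x

/-- the Fourier transform of `v` (real, since `v` is even) -/
noncomputable def hat (v : E3 → ℝ) (k : E3) : ℝ := (𝓕 (fun x => (v x : ℂ)) k).re

/-- Let `v₁` be a pair potential.
1. If `v₁` is square integrable, there are `C, c > 0` such that for every coupling `g > 0`, every density
`ρ ≥ C min(g, 1)` and every solution `(u, e)`, `u ≤ 1`, of the Simple equation with potential `g v₁` at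
density `ρ`, for every large `N` the ground-state energy of `N` bosons on the torus of volume `N/ρ` with
pair potential `g v₁` is at most `(e - c g (ρ g/(1 + ρ g))²) N`.
2. If the Fourier transform of `v₁` is negative somewhere, then for every `g₀ > 0` there are `C, c > 0`
such that for every coupling `g ≥ g₀` and every density `ρ ≥ C` it is at most `(e - c g ρ) N`. -/
theorem result (v₁ : E3 → ℝ) (hv : IsPotential v₁) :
    (MemLp v₁ 2 → ∃ C > 0, ∃ c > 0, ∀ g > 0, ∀ ρ : ℝ, C * min g 1 ≤ ρ →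
      ∀ (u : E3 → ℝ) (e : ℝ), IsSimpleSolution (fun x => g * v₁ x) ρ u e →
      (∀ᵐ x, u x ≤ 1) → ∃ N₀ : ℕ, ∀ N ≥ N₀, ∀ L : ℝ, L = ((N : ℝ) / ρ) ^ (1 / 3 : ℝ) →
      ∀ W : (Fin 3 → ℝ) → ℝ≥0∞, (∀ y, W y ≤ periodize L (pot fun x => g * v₁ x) y) →
        groundEnergy N L W ≤
          ENNReal.ofReal ((e - c * g * (ρ * g / (1 + ρ * g)) ^ 2) * N)) ∧
    ((∃ k, hat v₁ k < 0) → ∀ g₀ > 0, ∃ C > 0, ∃ c > 0, ∀ g ≥ g₀, ∀ ρ ≥ C, ∃ N₀ : ℕ,
      ∀ (u : E3 → ℝ) (e : ℝ), IsSimpleSolution (fun x => g * v₁ x) ρ u e →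
      (∀ᵐ x, u x ≤ 1) → ∀ N ≥ N₀, ∀ L : ℝ, L = ((N : ℝ) / ρ) ^ (1 / 3 : ℝ) →
      ∀ W : (Fin 3 → ℝ) → ℝ≥0∞, (∀ y, W y ≤ periodize L (pot fun x => g * v₁ x) y) →
        groundEnergy N L W ≤ ENNReal.ofReal ((e - c * g * ρ) * N)) := by
  refine ⟨fun hv2 => ?_, fun hneg g₀ hg₀ => ?_⟩
  · -- the weak couplings
    obtain ⟨lam₀, hlam₀, C₁, hC₁, c₁, hc₁, hweak⟩ := Pool.Agent.P76w.main
      ⟨hv.measurable, hv.integrable, hv.nonneg, hv.even, hv2, hv.ne_zero⟩
    -- the other couplings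
    have hstrong : ∃ δ > 0, ∃ ρ₀ > 0, ∀ g ≥ lam₀, ∀ ρ ≥ ρ₀, ∃ N₀ : ℕ, ∀ (u : E3 → ℝ) (e : ℝ),
        IsSimpleSolution (fun x => g * v₁ x) ρ u e → (∀ᵐ x, u x ≤ 1) → ∀ N ≥ N₀,
        groundEnergy N ((N / ρ) ^ (1 / 3 : ℝ))
          (periodize ((N / ρ) ^ (1 / 3 : ℝ)) (pot fun x => g * v₁ x)) ≤
          ENNReal.ofReal ((e - δ * g) * N) := by
      by_cases hneg : ∃ k, (𝓕 (fun x => (v₁ x : ℂ)) k).re < 0
      · obtain ⟨δ, hδ, ρ₀, hρ₀, h⟩ := Pool.Agent.P76g.main_neg hv.measurable hv.integrable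
          hv.nonneg hv.even hv.ne_zero hneg hlam₀
        refine ⟨δ, hδ, max ρ₀ 1, by positivity, fun g hg ρ hρ => ?_⟩
        obtain ⟨N₀, hN₀⟩ := h g hg ρ ((le_max_left _ _).trans hρ)
        refine ⟨N₀, fun u e hs hu N hN => (hN₀ u e hs hu N hN).trans
          (ENNReal.ofReal_le_ofReal (mul_le_mul_of_nonneg_right ?_ (Nat.cast_nonneg N)))⟩
        have h1 : (1 : ℝ) ≤ ρ := (le_max_right _ _).trans hρ
        have h2 : 0 < δ * g := mul_pos hδ (lt_of_lt_of_le hlam₀ hg)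
        nlinarith
      · push Not at hneg
        exact Pool.Agent.P76g.main_pos hv.measurable hv.integrable hv.nonneg hv.even hv2
          hv.ne_zero hneg hlam₀
    obtain ⟨δ, hδ, ρ₀, hρ₀, hs⟩ := hstrong
    refine ⟨max (max C₁ (C₁ * lam₀)) (ρ₀ / min lam₀ 1), by positivity, min c₁ δ, by positivity,
      ?_⟩
    intro g hg ρ hρ u e hsol hu
    have hmin : 0 < min g 1 := lt_min hg one_pos
    have hρ0 : 0 < ρ := lt_of_lt_of_le (by positivity) hρ
    have hq0 : 0 ≤ (ρ * g / (1 + ρ * g)) ^ 2 := by positivity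
    have hq1 : (ρ * g / (1 + ρ * g)) ^ 2 ≤ 1 := by
      refine pow_le_one₀ (by positivity) ?_
      rw [div_le_one (by positivity)]
      linarith
    rcases le_total g lam₀ with hle | hge
    · have hCg : C₁ * g ≤ ρ := by
        refine le_trans ?_ hρ
        rcases le_total g 1 with h1 | h1
        · rw [min_eq_left h1]
          exact mul_le_mul_of_nonneg_right ((le_max_left _ _).trans (le_max_left _ _)) hg.le
        · rw [min_eq_right h1, mul_one]
          calc C₁ * g ≤ C₁ * lam₀ := by gcongr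
            _ ≤ _ := (le_max_right _ _).trans (le_max_left _ _)
      obtain ⟨N₀, hN₀⟩ := hweak g hg hle ρ hCg u e hsol hu
      refine ⟨N₀, fun N hN L hL W hW => ?_⟩
      subst hL
      refine (groundEnergy_mono hW).trans ((hN₀ N hN).trans (ENNReal.ofReal_le_ofReal
        (mul_le_mul_of_nonneg_right ?_ (Nat.cast_nonneg N))))
      have h1 : min c₁ δ * g * (ρ * g / (1 + ρ * g)) ^ 2 ≤
          c₁ * g * (ρ * g / (1 + ρ * g)) ^ 2 := by
        gcongr
        exact min_le_left _ _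
      linarith
    · have hρ1 : ρ₀ ≤ ρ := by
        refine le_trans ?_ hρ
        have h1 : min lam₀ 1 ≤ min g 1 := min_le_min_right _ hge
        have h2 : 0 < min lam₀ 1 := lt_min hlam₀ one_pos
        calc ρ₀ = ρ₀ / min lam₀ 1 * min lam₀ 1 := by field_simp
          _ ≤ _ := mul_le_mul (le_max_right _ _) h1 h2.le (by positivity)
      obtain ⟨N₀, hN₀⟩ := hs g hge ρ hρ1
      refine ⟨N₀, fun N hN L hL W hW => ?_⟩
      subst hL
      refine (groundEnergy_mono hW).trans ((hN₀ u e hsol hu N hN).trans (ENNReal.ofReal_le_ofReal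
        (mul_le_mul_of_nonneg_right ?_ (Nat.cast_nonneg N))))
      have h1 : min c₁ δ * g * (ρ * g / (1 + ρ * g)) ^ 2 ≤ δ * g * 1 := by
        gcongr
        exact min_le_right _ _
      linarith
  · obtain ⟨δ, hδ, ρ₀, hρ₀, h⟩ := Pool.Agent.P76g.main_neg hv.measurable hv.integrable
      hv.nonneg hv.even hv.ne_zero hneg hg₀
    refine ⟨ρ₀, hρ₀, δ, hδ, fun g hg ρ hρ => ?_⟩
    obtain ⟨N₀, hN₀⟩ := h g hg ρ hρ
    refine ⟨N₀, fun u e hs hu N hN L hL W hW => ?_⟩
    subst hL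
    exact (groundEnergy_mono hW).trans (hN₀ u e hs hu N hN)

end Pool.Agent.Results.MP_76de3d_mp.AllCouplings
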