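import Pool.Agent.Lib.P76s.Exact

/-!
The exact high-density limit of `e - e₀(ρ)` for pair potentials of positive type.
-/

open MeasureTheory Filter Topology
open scoped ENNReal NNReal FourierTransform
open Pool.Agent.P76s

namespace Pool.Agent.Results.MP_76de3d_mp.ExactGap

/-- the Fourier transform of `v` (real if `v` is even) -/
noncomputable def hat (v : E3 → ℝ) (k : E3) : ℝ := (𝓕 (fun x => (v x : ℂ)) k).re

/-- `½ ∫ v̂(k) √(1 - v̂(k)/v̂(0)) dk` -/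
noncomputable def gap (v : E3 → ℝ) : ℝ :=
  1 / 2 * ∫ k, hat v k * √(1 - hat v k / ∫ x, v x)

/-- Let `v ≥ 0` be continuous, even, `O(|x|⁻⁴)`, `v ≠ 0`, with nonnegative Fourier transform.  Then
`gap v > 0`, and for every `ε > 0`, every large density `ρ`, every solution `(u, e)` of the Simple
equation with `u ≤ 1` and every large `N`, the ground-state energy of `N` bosons on the torus of
volume `N/ρ` lies between `(e - gap v - ε) N` and `(e - gap v + ε) N`. -/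
theorem result (v : E3 → ℝ) (hcont : Continuous v) (hv0 : ∀ x, 0 ≤ v x)
    (heven : ∀ x, v (-x) = v x) (hdec : ∃ C : ℝ, ∀ x, v x * (1 + ‖x‖) ^ 4 ≤ C)
    (hne : 0 < ∫ x, v x) (hpos : ∀ k, 0 ≤ hat v k) :
    0 < gap v ∧ ∀ ε > 0, ∃ ρ₀ > 0, ∀ ρ ≥ ρ₀, ∃ N₀ : ℕ, ∀ (u : E3 → ℝ) (e : ℝ),
      IsSimpleSolution v ρ u e → (∀ᵐ x, u x ≤ 1) →
      ∀ N ≥ N₀, ∀ L : ℝ, L = ((N : ℝ) / ρ) ^ (1 / 3 : ℝ) →
        ENNReal.ofReal ((e - gap v - ε) * N) ≤ groundEnergy N L (periodize L (pot v)) ∧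
        groundEnergy N L (periodize L (pot v)) ≤ ENNReal.ofReal ((e - gap v + ε) * N) := by
  obtain ⟨C, hC⟩ := hdec
  obtain ⟨h1, h2⟩ := main_exact hcont hv0 heven hC hne hpos (g := gap v) rfl
  refine ⟨h1, fun ε hε => ?_⟩
  obtain ⟨ρ₀, hρ₀, h⟩ := h2 ε hε
  refine ⟨ρ₀, hρ₀, fun ρ hρ => ?_⟩
  obtain ⟨N₀, hN₀⟩ := h ρ hρ
  refine ⟨N₀, fun u e hs hu N hN L hL => ?_⟩
  subst hL
  exact hN₀ u e hs hu N hN

end Pool.Agent.Results.MP_76de3d_mp.ExactGap
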