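import Pool.Agent.Lib.P76e.Main

/-!
Comparison between the Simple-equation energy `e` and the ground-state energy per particle `e₀(ρ)` of the
Bose gas with potential `g v₁` at strong coupling, at all densities `ρ ≥ 1/(5R³)`, `R` the range of `v₁`.
-/

open MeasureTheory Filter Topology
open scoped ENNReal NNReal
open Pool.Agent.P76s

namespace Pool.Agent.Results.MP_76de3d_mp.HardSphereRegime

/-- `v : ℝ³ → [0, M]` is an even (for instance radial) pair potential which vanishes for `|x| ≥ R`. -/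
structure IsPotential (M R : ℝ) (v : E3 → ℝ) : Prop where
  measurable : Measurable v
  nonneg : ∀ x, 0 ≤ v x
  le : ∀ x, v x ≤ M
  even : ∀ x, v (-x) = v x
  support : ∀ x : E3, R ≤ ‖x‖ → v x = 0
  integrable : Integrable v

/-- For `N ≥ N₀` the ground-state energy of `N` bosons on the torus of volume `N/ρ` with pair potential `v`
is at most `(e - δ) N`. -/
def GapAt (v : E3 → ℝ) (ρ e δ : ℝ) (N₀ : ℕ) : Prop :=
  ∀ N ≥ N₀, ∀ L : ℝ, L = ((N : ℝ) / ρ) ^ (1 / 3 : ℝ) →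
    ∀ W : (Fin 3 → ℝ) → ℝ≥0∞, (∀ y, W y ≤ periodize L (pot v) y) →
      groundEnergy N L W ≤ ENNReal.ofReal ((e - δ) * N)

/-- Let `v₁` be such a potential, `V = ∫ v₁`, `Q = R³/√2` (the volume per particle in the close packing of
spheres of diameter `R`), `ρ₂ Q < 1`, and call a density `ρ` admissible if `ρ ≤ ρ₂` or `V > (9/8) M Q`.
1. If `v₁ > 0` for `|x| < R`, there are `g₁, c > 0` such that for every `g ≥ g₁`, every admissible
`ρ ≥ 1/(5R³)` and every solution `(u, e)`, `u ≤ 1`, of the Simple equation with potential `g v₁` at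
density `ρ`, the ground-state energy of `N` bosons is at most `(e - c) N`, `N` large.
2. For every `ρ₀ > 1/|{v₁ > 0}|` there are `g₁, c > 0` such that for every `g ≥ g₁` and every admissible
`ρ ≥ ρ₀` it is at most `(e - c g ρ) N`. -/
theorem result (M R : ℝ) (hR : 0 < R) (v₁ : E3 → ℝ) (hv : IsPotential M R v₁) (ρ₂ : ℝ)
    (hρ₂ : ρ₂ * (R ^ 3 / Real.sqrt 2) < 1) :
    ((∀ x : E3, ‖x‖ < R → 0 < v₁ x) →
      ∃ g₁ > 0, ∃ c > 0, ∀ g ≥ g₁, ∀ ρ > 0, 1 ≤ 5 * (ρ * R ^ 3) →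
        (ρ ≤ ρ₂ ∨ 9 / 8 * (M * (R ^ 3 / Real.sqrt 2)) < ∫ x, v₁ x) → ∃ N₀ : ℕ, ∀ (u : E3 → ℝ) (e : ℝ),
        IsSimpleSolution (fun x => g * v₁ x) ρ u e → (∀ᵐ x, u x ≤ 1) →
          GapAt (fun x => g * v₁ x) ρ e c N₀) ∧
    (∀ ρ₀ > 0, 1 < ρ₀ * volume.real {x : E3 | 0 < v₁ x} →
      ∃ g₁ > 0, ∃ c > 0, ∀ g ≥ g₁, ∀ ρ ≥ ρ₀,
        (ρ ≤ ρ₂ ∨ 9 / 8 * (M * (R ^ 3 / Real.sqrt 2)) < ∫ x, v₁ x) → ∃ N₀ : ℕ, ∀ (u : E3 → ℝ) (e : ℝ),
        IsSimpleSolution (fun x => g * v₁ x) ρ u e → (∀ᵐ x, u x ≤ 1) →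
          GapAt (fun x => g * v₁ x) ρ e (c * g * ρ) N₀) := by
  refine ⟨fun hpos => ?_, fun ρ₀ hρ₀ hb => ?_⟩
  · obtain ⟨g₁, hg₁, c, hc, h⟩ := Pool.Agent.P76e.main_C hv.measurable hv.integrable
      hv.nonneg hR hv.le hv.support hpos hρ₂
    refine ⟨g₁, hg₁, c, hc, fun g hg ρ hρ hρR hor => ?_⟩
    obtain ⟨N₀, hN₀⟩ := h g hg ρ hρ hρR hor
    refine ⟨N₀, fun u e hs hu N hN L hL W hW => ?_⟩
    subst hL
    exact (groundEnergy_mono hW).trans (hN₀ u e hs hu N hN)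
  · have hΩ : MeasurableSet {x : E3 | 0 < v₁ x} := measurableSet_lt measurable_const hv.measurable
    have hΩf : volume {x : E3 | 0 < v₁ x} ≠ ⊤ := by
      intro h
      rw [measureReal_def, h] at hb
      simp at hb
      linarith
    obtain ⟨g₁, hg₁, c, hc, h⟩ := Pool.Agent.P76f.main_B hv.measurable hv.integrable
      hv.nonneg hR hv.le hv.support hΩ hΩf (fun x hx => hx) hρ₀ hb hρ₂
    refine ⟨g₁, hg₁, c, hc, fun g hg ρ hρ hor => ?_⟩
    obtain ⟨N₀, hN₀⟩ := h g hg ρ hρ hor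
    refine ⟨N₀, fun u e hs hu N hN L hL W hW => ?_⟩
    subst hL
    exact (groundEnergy_mono hW).trans (hN₀ u e hs hu N hN)

end Pool.Agent.Results.MP_76de3d_mp.HardSphereRegime
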