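import Pool.Agent.Lib.P76de3d.Gauss

/-!
The Simple equation has classical integrable solutions `(u,e)` with strictly negative energy `e`,
although the many-body energy `e₀(ρ)` is nonnegative.
-/

open MeasureTheory Filter Topology InnerProductSpace Pool.Agent.P76de3d

namespace Pool.Agent.Results.MP_76de3d_mp.SpuriousSolution

/-- the point `log 50` at which `u = 1`. -/
noncomputable def s0 : ℝ := Real.log 50

/-- minus the energy in units of `b`. -/
noncomputable def ep : ℝ := 4 * Real.log 50 - 6

/-- the profile of `(1-u) v`. -/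
noncomputable def hh (s : ℝ) : ℝ := 6 - 4 * ep - 4 * s + ep / √2 * Real.exp (s / 2)

lemma log50_gt : 3.46 < Real.log 50 := by
  have h1 : Real.log 32 = 5 * Real.log 2 := by
    rw [show (32 : ℝ) = 2 ^ 5 by norm_num, Real.log_pow]; norm_num
  have h2 : Real.log 32 < Real.log 50 := Real.log_lt_log (by norm_num) (by norm_num)
  have h3 := Real.log_two_gt_d9
  linarith

lemma ep_gt : 7.8 < ep := by
  unfold ep; linarith [log50_gt]

lemma s0_pos : 0 < s0 := by unfold s0; linarith [log50_gt]

lemma exp_s0 : Real.exp s0 = 50 := by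
  unfold s0; exact Real.exp_log (by norm_num)

lemma exp_s0_half : Real.exp (s0 / 2) = 5 * √2 := by
  have h1 : Real.exp (s0 / 2) ^ 2 = 50 := by
    rw [← Real.exp_nat_mul]
    rw [show ((2 : ℕ) : ℝ) * (s0 / 2) = s0 by push_cast; ring]
    exact exp_s0
  have h2 : (5 * √2) ^ 2 = 50 := by
    rw [mul_pow, Real.sq_sqrt (by norm_num)]; norm_num
  have h3 : 0 ≤ Real.exp (s0 / 2) := (Real.exp_pos _).le
  have h4 : 0 ≤ 5 * √2 := by positivity
  exact (sq_eq_sq₀ h3 h4).1 (by rw [h1, h2])

lemma hh_s0 : hh s0 = 0 := by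
  unfold hh
  rw [exp_s0_half]
  have h : √2 ≠ 0 := by positivity
  have : ep / √2 * (5 * √2) = 5 * ep := by field_simp
  rw [this]
  unfold ep s0
  ring

lemma hasDerivAt_hh (s : ℝ) : HasDerivAt hh (-4 + ep / √2 * (Real.exp (s / 2) / 2)) s := by
  unfold hh
  have h1 : HasDerivAt (fun s : ℝ => Real.exp (s / 2)) (Real.exp (s / 2) * (1 / 2)) s :=
    ((hasDerivAt_id s).div_const 2).exp
  have h2 := (((hasDerivAt_const s (6 - 4 * ep)).sub ((hasDerivAt_id s).const_mul 4))).add
    (h1.const_mul (ep / √2))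
  refine h2.congr_deriv ?_
  ring

lemma deriv_hh_s0 : 0 < deriv hh s0 := by
  rw [(hasDerivAt_hh s0).deriv, exp_s0_half]
  have h : √2 ≠ 0 := by positivity
  have : ep / √2 * (5 * √2 / 2) = 5 / 2 * ep := by field_simp
  rw [this]
  linarith [ep_gt]

lemma hh_neg {s : ℝ} (h0 : 0 ≤ s) (h1 : s < s0) : hh s < 0 := by
  have hs0 := s0_pos
  set t := s / s0 with ht
  have ht0 : 0 ≤ t := by positivity
  have ht1 : t < 1 := by rw [ht, div_lt_one hs0]; exact h1
  have hs : s = t * s0 := by rw [ht]; field_simp
  have hconv : Real.exp (s / 2) ≤ (1 - t) * Real.exp 0 + t * Real.exp (s0 / 2) := by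
    have := convexOn_exp.2 (Set.mem_univ (0 : ℝ)) (Set.mem_univ (s0 / 2))
      (by linarith : 0 ≤ 1 - t) ht0 (by ring)
    simp only [smul_eq_mul] at this
    refine le_trans (le_of_eq ?_) this
    congr 1
    rw [hs]; ring
  have hep := ep_gt
  have h2 : (0 : ℝ) < √2 := by positivity
  have h21 : 1 ≤ √2 := by
    rw [show (1 : ℝ) = √1 by simp]; exact Real.sqrt_le_sqrt (by norm_num)
  have hq : ep / √2 ≤ ep := div_le_self (by linarith) h21
  have hq0 : 0 < ep / √2 := by positivity
  have hz := hh_s0
  unfold hh at hz ⊢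
  have h3 : ep / √2 * Real.exp (s / 2) ≤
      ep / √2 * ((1 - t) * Real.exp 0 + t * Real.exp (s0 / 2)) := by gcongr
  rw [Real.exp_zero] at h3
  have h5 : 6 - 4 * ep - 4 * s + ep / √2 * Real.exp (s / 2) ≤
      (1 - t) * (6 - 4 * ep + ep / √2) := by
    have : t * (6 - 4 * ep - 4 * s0 + ep / √2 * Real.exp (s0 / 2)) = 0 := by rw [hz]; ring
    rw [hs] at h3 ⊢
    nlinarith
  have h6 : (1 - t) * (6 - 4 * ep + ep / √2) < 0 := by
    apply mul_neg_of_pos_of_neg <;> linarith
  linarith

lemma hh_pos {s : ℝ} (h1 : s0 < s) : 0 < hh s := by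
  have hz := hh_s0
  unfold hh at hz ⊢
  have hep := ep_gt
  have h2 : (0 : ℝ) < √2 := by positivity
  have hexp : Real.exp (s0 / 2) * (1 + (s - s0) / 2) ≤ Real.exp (s / 2) := by
    have h3 := Real.add_one_le_exp ((s - s0) / 2)
    have h4 : Real.exp (s / 2) = Real.exp (s0 / 2) * Real.exp ((s - s0) / 2) := by
      rw [← Real.exp_add]; congr 1; ring
    rw [h4]
    have := Real.exp_pos (s0 / 2)
    nlinarith
  have hq0 : 0 < ep / √2 := by positivity
  have h5 : ep / √2 * (Real.exp (s0 / 2) * (1 + (s - s0) / 2)) ≤ ep / √2 * Real.exp (s / 2) := by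
    gcongr
  have h6 : ep / √2 * (Real.exp (s0 / 2) * (1 + (s - s0) / 2)) =
      5 * ep + 5 / 2 * ep * (s - s0) := by
    rw [exp_s0_half]; field_simp
  have h7 : ep / √2 * Real.exp (s0 / 2) = 5 * ep := by rw [exp_s0_half]; field_simp
  nlinarith

lemma D2_pos {s : ℝ} (h0 : 0 ≤ s) : 0 < dslope hh s0 s := by
  rcases lt_trichotomy s s0 with h | h | h
  · rw [dslope_of_ne _ h.ne, slope_def_field, hh_s0, sub_zero]
    exact div_pos_of_neg_of_neg (hh_neg h0 h) (by linarith)
  · rw [h, dslope_same]; exact deriv_hh_s0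
  · rw [dslope_of_ne _ h.ne', slope_def_field, hh_s0, sub_zero]
    exact div_pos (hh_pos h) (by linarith)

lemma D1_pos (s : ℝ) : 0 < dslope Real.exp s0 s := by
  rcases lt_trichotomy s s0 with h | h | h
  · rw [dslope_of_ne _ h.ne, slope_def_field]
    exact div_pos_of_neg_of_neg (by linarith [Real.exp_lt_exp.2 h]) (by linarith)
  · rw [h, dslope_same, Real.deriv_exp]; exact Real.exp_pos _
  · rw [dslope_of_ne _ h.ne', slope_def_field]
    exact div_pos (by linarith [Real.exp_lt_exp.2 h]) (by linarith)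

lemma continuous_dslope {f : ℝ → ℝ} (hf : Differentiable ℝ f) (a : ℝ) :
    Continuous (dslope f a) := by
  rw [continuous_iff_continuousAt]
  intro b
  by_cases h : b = a
  · rw [h]; exact continuousAt_dslope_same.2 (hf a)
  · exact (continuousAt_dslope_of_ne h).2 (hf b).continuousAt

/-- the potential -/
noncomputable def pot (b : ℝ) (x : E3) : ℝ :=
  50 * b * (dslope hh s0 (b * ‖x‖ ^ 2) / dslope Real.exp s0 (b * ‖x‖ ^ 2))

lemma pot_pos {b : ℝ} (hb : 0 < b) (x : E3) : 0 < pot b x := by
  unfold pot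
  have h1 := D2_pos (s := b * ‖x‖ ^ 2) (by positivity)
  have h2 := D1_pos (b * ‖x‖ ^ 2)
  positivity

lemma continuous_pot (b : ℝ) : Continuous (pot b) := by
  unfold pot
  refine continuous_const.mul (Continuous.div ?_ ?_ fun x => (D1_pos _).ne')
  · exact (continuous_dslope (fun s => (hasDerivAt_hh s).differentiableAt) s0).comp
      (continuous_const.mul (continuous_norm.pow 2))
  · exact (continuous_dslope Real.differentiable_exp s0).comp
      (continuous_const.mul (continuous_norm.pow 2))

/-- `(1-u) v` in closed form -/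
lemma one_sub_mul_pot (b : ℝ) (x : E3) : (1 - 50 * gs b x) * pot b x =
    50 * b * ((6 - 4 * ep) * gs b x - 4 * b * (‖x‖ ^ 2 * gs b x) + ep / √2 * gs (b / 2) x) := by
  set s := b * ‖x‖ ^ 2 with hs
  have h1 := sub_smul_dslope Real.exp s0 s
  have h2 := sub_smul_dslope hh s0 s
  rw [exp_s0, smul_eq_mul] at h1
  rw [hh_s0, smul_eq_mul, sub_zero] at h2
  have hD1 := (D1_pos s).ne'
  have hg : gs b x = Real.exp (-s) := by unfold gs; rw [hs]; congr 1; ring
  have hg2 : gs (b / 2) x = Real.exp (-s) * Real.exp (s / 2) := by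
    unfold gs; rw [← Real.exp_add, hs]; congr 1; ring
  have h3 : 1 - 50 * gs b x = gs b x * (Real.exp s - 50) := by
    rw [hg, mul_sub, ← Real.exp_add]; simp; ring
  have h4 : pot b x = 50 * b * (dslope hh s0 s / dslope Real.exp s0 s) := rfl
  rw [h3, h4, ← h1]
  have h5 : gs b x * ((s - s0) * dslope Real.exp s0 s) *
      (50 * b * (dslope hh s0 s / dslope Real.exp s0 s)) =
      50 * b * gs b x * ((s - s0) * dslope hh s0 s) := by
    field_simp
  rw [h5, h2, hg2, ← hg]
  unfold hh
  have h6 : b * ‖x‖ ^ 2 = s := hs.symm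
  calc _ = 50 * b * ((6 - 4 * ep) * gs b x - 4 * (s * gs b x) +
        ep / √2 * (gs b x * Real.exp (s / 2))) := by ring
    _ = _ := by rw [hs]; ring

lemma integrable_F {b : ℝ} (hb : 0 < b) : Integrable (fun x : E3 =>
    50 * b * ((6 - 4 * ep) * gs b x - 4 * b * (‖x‖ ^ 2 * gs b x) + ep / √2 * gs (b / 2) x)) :=
  ((((integrable_gs hb).const_mul _).sub ((integrable_sq_mul_gs hb).const_mul _)).add
    ((integrable_gs (by positivity)).const_mul _)).const_mul _

lemma integrable_pot {b : ℝ} (hb : 0 < b) : Integrable (pot b) := by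
  set R : ℝ := √(Real.log 100 / b) with hR
  have hK : IsCompact (Metric.closedBall (0 : E3) R) := isCompact_closedBall 0 R
  have h1 : IntegrableOn (pot b) (Metric.closedBall (0 : E3) R) :=
    (continuous_pot b).continuousOn.integrableOn_compact hK
  have h2 : IntegrableOn (pot b) (Metric.closedBall (0 : E3) R)ᶜ := by
    refine Integrable.mono' (((integrable_F hb).const_mul 2).integrableOn
      (s := (Metric.closedBall (0 : E3) R)ᶜ)) ?_ ?_
    · exact (continuous_pot b).aestronglyMeasurable
    · refine (ae_restrict_iff' (measurableSet_closedBall.compl)).2 ?_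
      filter_upwards with x hx
      have hx' : R < ‖x‖ := by simpa using hx
      have hp := pot_pos hb x
      rw [Real.norm_of_nonneg hp.le, ← one_sub_mul_pot]
      have hu : 50 * gs b x ≤ 1 / 2 := by
        have h3 : Real.log 100 ≤ b * ‖x‖ ^ 2 := by
          have h4 : R ^ 2 = Real.log 100 / b := Real.sq_sqrt (by
            have := Real.log_nonneg (show (1 : ℝ) ≤ 100 by norm_num)
            positivity)
          have h5 : R ^ 2 ≤ ‖x‖ ^ 2 := by
            have : 0 ≤ R := Real.sqrt_nonneg _
            gcongr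
          rw [h4, div_le_iff₀ hb] at h5
          linarith
        have h6 : gs b x ≤ Real.exp (-Real.log 100) := by
          unfold gs; apply Real.exp_le_exp.2; linarith
        rw [Real.exp_neg, Real.exp_log (by norm_num)] at h6
        linarith
      nlinarith
  have := h1.union h2
  rwa [Set.union_compl_self, integrableOn_univ] at this

/-- For every density `ρ > 0` there is a continuous, strictly positive, integrable, radial pair
potential `v` such that the Simple equation at density `ρ` has a classical solution `(u,e)`, with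
`u` smooth, integrable and strictly positive, of energy `e < 0`; in particular `e < e₀(ρ)`. -/
theorem result : ∀ ρ : ℝ, 0 < ρ → ∃ v : E3 → ℝ, Continuous v ∧ Integrable v ∧ (∀ x, 0 < v x) ∧
    (∀ x y, ‖x‖ = ‖y‖ → v x = v y) ∧
    ∃ (u : E3 → ℝ) (e : ℝ), IsClassicalSolution v ρ u e ∧ (∀ x, 0 < u x) ∧ e < 0 ∧
      ∀ e₀, IsEnergyPerParticle v ρ e₀ → e < e₀ := by
  intro ρ hρ
  set b : ℝ := Real.pi * (50 * ρ) ^ (2 / 3 : ℝ) with hbdef
  have hb : 0 < b := by positivity
  have hI : (Real.pi / b) ^ (3 / 2 : ℝ) = 1 / (50 * ρ) := by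
    have h1 : Real.pi / b = ((50 * ρ) ^ (2 / 3 : ℝ))⁻¹ := by
      rw [hbdef]; field_simp
    rw [h1, Real.inv_rpow (by positivity), ← Real.rpow_mul (by positivity)]
    norm_num
  have hep := ep_gt
  refine ⟨pot b, continuous_pot b, integrable_pot hb, pot_pos hb, ?_, fun x => 50 * gs b x,
    -(ep * b), ⟨?_, ?_, ?_, ?_⟩, ?_, ?_, ?_⟩
  · intro x y hxy
    unfold pot
    rw [hxy]
  · exact (integrable_gs hb).const_mul 50
  · exact contDiff_const.mul (contDiff_gs b)
  · intro x
    have hL : Laplacian.laplacian (fun x => 50 * gs b x) x =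
        50 * ((4 * b ^ 2 * ‖x‖ ^ 2 - 6 * b) * gs b x) := by
      have h1 : (fun x => 50 * gs b x) = (50 : ℝ) • gs b := by ext y; simp
      rw [h1]
      have h2 : ContDiffAt ℝ 2 (gs b) x := (contDiff_gs b).contDiffAt.of_le (by norm_cast)
      rw [laplacian_smul (50 : ℝ) h2, laplacian_gs]
      simp
    have hc : ∫ y, (50 * gs b y) * (50 * gs b (x - y)) =
        2500 * ((Real.pi / (2 * b)) ^ (3 / 2 : ℝ) * gs (b / 2) x) := by
      rw [← conv_gs hb, ← integral_const_mul]
      congr 1; ext y; ring
    have hhalf : (Real.pi / (2 * b)) ^ (3 / 2 : ℝ) = 1 / (50 * ρ) * (1 / (2 * √2)) := by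
      have h1 : Real.pi / (2 * b) = (Real.pi / b) * (1 / 2) := by field_simp
      rw [h1, Real.mul_rpow (by positivity) (by positivity), hI]
      congr 1
      rw [Real.div_rpow (by norm_num) (by norm_num), Real.one_rpow]
      congr 1
      rw [show (3 / 2 : ℝ) = 1 + 1 / 2 by norm_num, Real.rpow_add (by norm_num), Real.rpow_one,
        ← Real.sqrt_eq_rpow]
    rw [hL, hc, hhalf, one_sub_mul_pot]
    have h2 : √2 ≠ 0 := by positivity
    field_simp
    ring
  · have hFi : ∫ x : E3, (1 - 50 * gs b x) * pot b x = 50 * b * (-(2 * ep) * (1 / (50 * ρ))) := by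
      simp_rw [one_sub_mul_pot]
      rw [integral_const_mul, integral_add, integral_sub, integral_const_mul, integral_const_mul,
        integral_const_mul, integral_sq_mul_gs hb, integral_gs hb,
        integral_gs (by positivity : 0 < b / 2)]
      · have h1 : Real.pi / (b / 2) = (Real.pi / b) * 2 := by field_simp
        rw [h1, Real.mul_rpow (by positivity) (by norm_num), hI]
        have h3 : (2 : ℝ) ^ (3 / 2 : ℝ) = 2 * √2 := by
          rw [show (3 / 2 : ℝ) = 1 + 1 / 2 by norm_num, Real.rpow_add (by norm_num), Real.rpow_one,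
            ← Real.sqrt_eq_rpow]
        rw [h3]
        have h2 : √2 ≠ 0 := by positivity
        field_simp
        ring
      · exact (integrable_gs hb).const_mul _
      · exact (integrable_sq_mul_gs hb).const_mul _
      · exact ((integrable_gs hb).const_mul _).sub ((integrable_sq_mul_gs hb).const_mul _)
      · exact (integrable_gs (by positivity)).const_mul _
    rw [hFi]
    field_simp
  · intro x
    have := gs_pos b x
    positivity
  · have : 0 < ep := by linarith
    have := mul_pos this hb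
    linarith
  · intro e₀ he₀
    have hpos : 0 < ep * b := mul_pos (by linarith) hb
    have hge : 0 ≤ e₀ := by
      refine ge_of_tendsto' he₀ fun N => ?_
      refine div_nonneg (Real.sInf_nonneg ?_) (Nat.cast_nonneg N)
      rintro E ⟨ψ, -, -, rfl⟩
      refine add_nonneg (integral_nonneg fun x => ?_) (integral_nonneg fun x => ?_)
      · have : 0 ≤ ∑ i : Fin N, ∑ a : Fin 3,
          ‖fderiv ℝ ψ x (Pi.single i (EuclideanSpace.single a (1 : ℝ)))‖ ^ 2 :=
          Finset.sum_nonneg fun i _ => Finset.sum_nonneg fun a _ => by positivity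
        positivity
      · refine mul_nonneg (Finset.sum_nonneg fun i _ => Finset.sum_nonneg fun j _ => ?_)
          (by positivity)
        split_ifs
        · exact tsum_nonneg fun z => (pot_pos hb _).le
        · exact le_rfl
    linarith

end Pool.Agent.Results.MP_76de3d_mp.SpuriousSolution
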